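import Mathlib

set_option autoImplicit false

/-! The commuting conductor of a finite group: a weighted criterion. -/

namespace Pool.Agent.H963CC

open scoped Classical

/-- The row `P_g` of the commuting matrix of `G`: `P_g(h) = 1` if `gh = hg`, else `0`. -/
noncomputable def P {G : Type*} [Group G] (g : G) : G → ℤ :=
  fun h => if g * h = h * g then 1 else 0

/-- The commuting difference lattice `M(G)`. -/
def M (G : Type*) [Group G] : Submodule ℤ (G → ℤ) :=
  Submodule.span ℤ {v | ∃ g g' : G, v = P g - P g'}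

/-- Reduction of an integer vector to a ring `K`. -/
def red (K : Type*) [Ring K] {ι : Type*} (v : ι → ℤ) : ι → K := fun i => (v i : K)

/-- Dimension over `K` of the `K`-span of the image of a lattice `L ⊆ ℤ^ι` in `K^ι`. -/
noncomputable def rk (K : Type*) [Ring K] {ι : Type*} (L : Submodule ℤ (ι → ℤ)) : ℕ :=
  Module.finrank K (Submodule.span K (red K '' (L : Set (ι → ℤ))))

/-- The commuting conductor of `G`: the primes `p` at which the rank of `M(G)` drops. -/
def Ccomm (G : Type*) [Group G] : Set ℕ :=
  {p | p.Prime ∧ rk (ZMod p) (M G) < rk ℚ (M G)}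

/-! ### Linear algebra -/

theorem li_lift {ι κ : Type*} [Fintype ι] [Fintype κ] (p : ℕ) [Fact p.Prime]
    (v : κ → ι → ℤ) (h : LinearIndependent (ZMod p) (fun k => red (ZMod p) (v k))) :
    LinearIndependent ℚ (fun k => red ℚ (v k)) := by
  rw [← LinearIndependent.iff_fractionRing ℤ ℚ, Fintype.linearIndependent_iff]
  intro c hc
  by_contra hne
  push Not at hne
  obtain ⟨k0, hk0⟩ := hne
  have hc' : ∀ i, ∑ k, c k * v k i = 0 := by
    intro i
    have := congrFun hc i
    simp only [Finset.sum_apply, red, Pi.zero_apply, zsmul_eq_mul, Pi.mul_apply,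
      Pi.intCast_apply] at this
    exact_mod_cast this
  obtain ⟨g, hg, hg1⟩ := Finset.extract_gcd c (s := (Finset.univ : Finset κ)) ⟨k0, Finset.mem_univ _⟩
  set d := Finset.univ.gcd c with hd
  have hd0 : d ≠ 0 := by
    intro h0
    apply hk0
    rw [hg k0 (Finset.mem_univ _), h0, zero_mul]
  have hg' : ∀ i, ∑ k, g k * v k i = 0 := by
    intro i
    have h1 : d * ∑ k, g k * v k i = 0 := by
      rw [← hc' i, Finset.mul_sum]
      refine Finset.sum_congr rfl fun k _ => ?_
      rw [hg k (Finset.mem_univ _)]; ring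
    exact (mul_eq_zero.1 h1).resolve_left hd0
  rw [Fintype.linearIndependent_iff] at h
  have hz := h (fun k => (g k : ZMod p)) (by
    funext i
    have := congrArg (fun z : ℤ => (z : ZMod p)) (hg' i)
    simpa [red, Finset.sum_apply] using this)
  have hp : (p : ℤ) ∣ Finset.univ.gcd g := by
    apply Finset.dvd_gcd
    intro k _
    exact (ZMod.intCast_zmod_eq_zero_iff_dvd _ _).1 (hz k)
  rw [hg1] at hp
  have := Int.natCast_dvd_natCast.1 (by simpa using hp : (p : ℤ) ∣ ((1 : ℕ) : ℤ))
  exact (Fact.out : p.Prime).one_lt.ne' (Nat.dvd_one.1 this)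

theorem rk_le {ι : Type*} [Fintype ι] (p : ℕ) [Fact p.Prime] (L : Submodule ℤ (ι → ℤ)) :
    rk (ZMod p) L ≤ rk ℚ L := by
  obtain ⟨b, hb, hspan, hli⟩ := exists_linearIndependent (ZMod p) (red (ZMod p) '' (L : Set (ι → ℤ)))
  have : Fintype b := (hli.setFinite).fintype
  choose u hu huE using fun x : b => hb x.2
  have hli' : LinearIndependent (ZMod p) (fun x : b => red (ZMod p) (u x)) := by
    have : (fun x : b => red (ZMod p) (u x)) = fun x : b => (x : ι → ZMod p) := by
      funext x; exact huE x
    rw [this]; exact hli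
  have hQ := li_lift p u hli'
  unfold rk
  rw [← hspan, finrank_span_set_eq_card hli, Set.toFinset_card]
  have hQ' : LinearIndependent ℚ (fun x : b =>
      (⟨red ℚ (u x), Submodule.subset_span ⟨u x, hu x, rfl⟩⟩ :
        Submodule.span ℚ (red ℚ '' (L : Set (ι → ℤ))))) := by
    apply LinearIndependent.of_comp (Submodule.subtype _)
    exact hQ
  exact hQ'.fintype_card_le_finrank

theorem rk_lt {ι : Type*} [Fintype ι] (p : ℕ) [Fact p.Prime] (L : Submodule ℤ (ι → ℤ))
    (w y : ι → ℤ) (N : ℤ) (hN : N ≠ 0) (hw : N • w ∈ L)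
    (hy : ∀ m ∈ L, (p : ℤ) ∣ ∑ i, y i * m i) (hyw : ¬ (p : ℤ) ∣ ∑ i, y i * w i) :
    rk (ZMod p) L < rk ℚ L := by
  set L' := L ⊔ Submodule.span ℤ {w} with hL'
  have hwL' : w ∈ L' := le_sup_right (a := L) (Submodule.mem_span_singleton_self w)
  have h1 : rk ℚ L' ≤ rk ℚ L := by
    unfold rk
    apply Submodule.finrank_mono
    rw [Submodule.span_le]
    rintro _ ⟨v, hv, rfl⟩
    obtain ⟨l, hl, x, hx, rfl⟩ := Submodule.mem_sup.1 hv
    obtain ⟨n, rfl⟩ := Submodule.mem_span_singleton.1 hx
    have e : red ℚ (l + n • w) = red ℚ l + ((n : ℚ) / N) • red ℚ (N • w) := by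
      funext i
      have : (N : ℚ) ≠ 0 := by exact_mod_cast hN
      simp only [red, Pi.add_apply, Pi.smul_apply, smul_eq_mul, Int.cast_add, Int.cast_mul]
      field_simp
    rw [e]
    exact Submodule.add_mem _ (Submodule.subset_span ⟨l, hl, rfl⟩)
      (Submodule.smul_mem _ _ (Submodule.subset_span ⟨_, hw, rfl⟩))
  have h2 : rk (ZMod p) L < rk (ZMod p) L' := by
    unfold rk
    apply Submodule.finrank_lt_finrank_of_lt
    refine lt_of_le_of_ne (Submodule.span_mono (Set.image_mono (fun x hx => le_sup_left (a := L) hx))) ?_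
    intro heq
    have hin : red (ZMod p) w ∈ Submodule.span (ZMod p) (red (ZMod p) '' (L : Set (ι → ℤ))) := by
      rw [heq]; exact Submodule.subset_span ⟨w, hwL', rfl⟩
    let φ : (ι → ZMod p) →ₗ[ZMod p] ZMod p :=
      { toFun := fun x => ∑ i, (y i : ZMod p) * x i
        map_add' := fun a b => by simp [mul_add, Finset.sum_add_distrib]
        map_smul' := fun r a => by
          simp only [Pi.smul_apply, smul_eq_mul, RingHom.id_apply, Finset.mul_sum]
          exact Finset.sum_congr rfl fun i _ => by ring }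
    have hle : Submodule.span (ZMod p) (red (ZMod p) '' (L : Set (ι → ℤ))) ≤ LinearMap.ker φ := by
      rw [Submodule.span_le]
      rintro _ ⟨m, hm, rfl⟩
      have := (ZMod.intCast_zmod_eq_zero_iff_dvd _ _).2 (hy m hm)
      show φ (red (ZMod p) m) = 0
      simpa [φ, red] using this
    have h0 : φ (red (ZMod p) w) = 0 := hle hin
    apply hyw
    rw [← ZMod.intCast_zmod_eq_zero_iff_dvd]
    simpa [φ, red] using h0
  exact lt_of_lt_of_le h2 ((rk_le p L').trans h1)

/-! ### Weighted criterion -/

theorem weighted {G : Type*} [Group G] [Fintype G] (a : G → ℤ) (c : ℤ)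
    (h0 : ∀ g ∈ Subgroup.center G, a g = 0)
    (hc : ∀ g ∉ Subgroup.center G, ∑ h, (if g * h = h * g then a h else 0) = c)
    (hT : ∑ g, a g ≠ c) (p : ℕ) (hp : p.Prime) (hpT : (p : ℤ) ∣ ∑ g, a g - c)
    (hpc : ¬ (p : ℤ) ∣ c) : p ∈ Ccomm G := by
  have := Fact.mk hp
  refine ⟨hp, ?_⟩
  have key : ∀ g : G, ∑ h, a h * P g h = if g ∈ Subgroup.center G then ∑ h, a h else c := by
    intro g
    split_ifs with hg
    · refine Finset.sum_congr rfl fun h _ => ?_
      have : g * h = h * g := (Subgroup.mem_center_iff.1 hg h).symm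
      simp [P, this]
    · rw [← hc g hg]
      refine Finset.sum_congr rfl fun h _ => ?_
      simp [P]
  refine rk_lt p (M G) (fun g => if g ∈ Subgroup.center G then 0 else 1) a (∑ g, a g - c)
    (sub_ne_zero.2 hT) ?_ ?_ ?_
  · -- `(T - c) • 1_{G∖Z}` is `∑ a_h (P_1 - P_h)`
    have e : ((∑ g, a g - c) • (fun g : G => if g ∈ Subgroup.center G then (0 : ℤ) else 1)) =
        ∑ h, a h • (P (1 : G) - P h) := by
      funext g
      simp only [Pi.smul_apply, Finset.sum_apply, Pi.sub_apply, smul_eq_mul]
      have h1 : ∀ h, a h * (P (1 : G) g - P h g) = a h - a h * P g h := by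
        intro h
        have : P h g = P g h := by
          unfold P; simp only [eq_comm]
        have h11 : P (1 : G) g = 1 := by simp [P]
        rw [this, h11]; ring
      simp only [h1, Finset.sum_sub_distrib, key]
      split_ifs <;> simp
    rw [e]
    exact Submodule.sum_mem _ fun h _ => Submodule.smul_mem _ _ (Submodule.subset_span ⟨1, h, rfl⟩)
  · intro m hm
    induction hm using Submodule.span_induction with
    | mem x hx =>
      obtain ⟨g, g', rfl⟩ := hx
      simp only [Pi.sub_apply, mul_sub, Finset.sum_sub_distrib, key]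
      split_ifs
      · simp
      · exact hpT
      · rw [← neg_sub]; exact (dvd_neg).2 hpT
      · simp
    | zero => simp
    | add x y _ _ hx hy =>
      simp only [Pi.add_apply, mul_add, Finset.sum_add_distrib]
      exact dvd_add hx hy
    | smul r x _ hx =>
      have : ∑ i, a i * (r • x) i = r * ∑ i, a i * x i := by
        rw [Finset.mul_sum]
        exact Finset.sum_congr rfl fun i _ => by simp only [Pi.smul_apply, smul_eq_mul]; ring
      rw [this]
      exact Dvd.dvd.mul_left hx r
  · have : ∑ i, a i * (if i ∈ Subgroup.center G then (0 : ℤ) else 1) = ∑ i, a i := by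
      refine Finset.sum_congr rfl fun i _ => ?_
      split_ifs with hi
      · rw [h0 i hi]; simp
      · simp
    rw [this]
    intro h
    apply hpc
    have := dvd_sub h hpT
    simpa using this

/-- Perfect codes: if every non-central element commutes with exactly one element of `D`. -/
theorem code {G : Type*} [Group G] [Fintype G] (hG : ∃ a b : G, a * b ≠ b * a) (D : Finset G)
    (hDz : ∀ z ∈ D, z ∉ Subgroup.center G)
    (hD : ∀ g ∉ Subgroup.center G, ∃! z, z ∈ D ∧ g * z = z * g) :
    3 ≤ D.card ∧ ∀ p : ℕ, p.Prime → p ∣ D.card - 1 → p ∈ Ccomm G := by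
  have hcov : ∀ g : G, D.Nonempty → ∃ z ∈ D, g * z = z * g := by
    intro g ⟨z0, hz0⟩
    by_cases hg : g ∈ Subgroup.center G
    · exact ⟨z0, hz0, (Subgroup.mem_center_iff.1 hg z0).symm⟩
    · obtain ⟨z, ⟨h1, h2⟩, -⟩ := hD g hg
      exact ⟨z, h1, h2⟩
  obtain ⟨a0, b0, hab⟩ := hG
  have ha0 : a0 ∉ Subgroup.center G := by
    intro h
    exact hab (Subgroup.mem_center_iff.1 h b0).symm
  have hne : D.Nonempty := by
    obtain ⟨z, ⟨h1, -⟩, -⟩ := hD a0 ha0
    exact ⟨z, h1⟩
  have h3 : 3 ≤ D.card := by
    by_contra hlt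
    have hc0 : D.card ≠ 0 := Finset.card_ne_zero.2 hne
    have hc12 : D.card = 1 ∨ D.card = 2 := by omega
    have ncen : ∀ z ∈ D, ∃ x : G, x * z ≠ z * x := by
      intro z hz
      by_contra hcon
      push Not at hcon
      exact hDz z hz (Subgroup.mem_center_iff.2 hcon)
    rcases hc12 with h1 | h2
    · obtain ⟨z, rfl⟩ := Finset.card_eq_one.1 h1
      obtain ⟨x, hx⟩ := ncen z (by simp)
      obtain ⟨z', hz', hxz⟩ := hcov x hne
      rw [Finset.mem_singleton] at hz'
      subst hz'
      exact hx hxz
    · obtain ⟨z1, z2, -, rfl⟩ := Finset.card_eq_two.1 h2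
      obtain ⟨x, hx⟩ := ncen z1 (by simp)
      obtain ⟨y, hy⟩ := ncen z2 (by simp)
      have cov2 : ∀ g : G, g * z1 = z1 * g ∨ g * z2 = z2 * g := by
        intro g
        obtain ⟨z, hz, hgz⟩ := hcov g hne
        simp only [Finset.mem_insert, Finset.mem_singleton] at hz
        rcases hz with rfl | rfl
        · exact Or.inl hgz
        · exact Or.inr hgz
      have hx2 : x * z2 = z2 * x := (cov2 x).resolve_left hx
      have hy1 : y * z1 = z1 * y := (cov2 y).resolve_right hy
      rcases cov2 (x * y) with h | h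
      · apply hx
        have : x * z1 * y = z1 * x * y := by
          calc x * z1 * y = x * (z1 * y) := by group
            _ = x * (y * z1) := by rw [hy1]
            _ = x * y * z1 := by group
            _ = z1 * (x * y) := h
            _ = z1 * x * y := by group
        exact mul_right_cancel this
      · apply hy
        have : x * (y * z2) = x * (z2 * y) := by
          calc x * (y * z2) = x * y * z2 := by group
            _ = z2 * (x * y) := h
            _ = z2 * x * y := by group
            _ = x * z2 * y := by rw [hx2]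
            _ = x * (z2 * y) := by group
        exact mul_left_cancel this
  refine ⟨h3, fun p hp hpd => ?_⟩
  have hsum : ∑ g, (if g ∈ D then (1 : ℤ) else 0) = D.card := by simp
  refine weighted (fun g => if g ∈ D then 1 else 0) 1 ?_ ?_ ?_ p hp ?_ ?_
  · intro g hg
    have : g ∉ D := fun h => hDz g h hg
    simp [this]
  · intro g hg
    obtain ⟨z, ⟨hz1, hz2⟩, hz3⟩ := hD g hg
    rw [Finset.sum_eq_single z]
    · simp [hz1, hz2]
    · intro b _ hb
      split_ifs with h1 h2
      · exact absurd (hz3 b ⟨h2, h1⟩) hb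
      · rfl
      · rfl
    · intro h; exact absurd (Finset.mem_univ _) h
  · rw [hsum]; intro h
    have : D.card = 1 := by exact_mod_cast h
    omega
  · rw [hsum]
    have := Int.natCast_dvd_natCast.2 hpd
    rwa [Nat.cast_sub (by omega), Nat.cast_one] at this
  · intro h
    have := Int.natCast_dvd_natCast.1 (by simpa using h : (p : ℤ) ∣ ((1 : ℕ) : ℤ))
    exact hp.one_lt.ne' (Nat.dvd_one.1 this)

theorem sum_out {G : Type*} [Group G] [Fintype G] (F : G → ℤ)
    (hF : ∀ g, ∀ c ∈ Subgroup.center G, F (g * c) = F g) :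
    ∑ g, F g = (Nat.card (Subgroup.center G) : ℤ) *
      ∑ q : G ⧸ Subgroup.center G, F q.out := by
  let φ : (G ⧸ Subgroup.center G) × Subgroup.center G → G := fun x => x.1.out * (x.2 : G)
  have hφ : Function.Bijective φ := by
    constructor
    · rintro ⟨q, c⟩ ⟨q', c'⟩ h
      have h' : q.out * (c : G) = q'.out * (c' : G) := h
      have hq : q = q' := by
        have := congrArg (QuotientGroup.mk (s := Subgroup.center G)) h'
        rw [QuotientGroup.mk_mul_of_mem _ c.2, QuotientGroup.mk_mul_of_mem _ c'.2,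
          QuotientGroup.out_eq', QuotientGroup.out_eq'] at this
        exact this
      subst hq
      have := mul_left_cancel h'
      rw [Subtype.ext this]
    · intro g
      refine ⟨⟨QuotientGroup.mk g, ⟨(QuotientGroup.mk g : G ⧸ Subgroup.center G).out⁻¹ * g, ?_⟩⟩, ?_⟩
      · rw [← QuotientGroup.eq, QuotientGroup.out_eq']
      · simp [φ]
  rw [← hφ.sum_comp, Fintype.sum_prod_type, Finset.mul_sum]
  refine Finset.sum_congr rfl fun q _ => ?_
  have : ∀ c : Subgroup.center G, F (φ (q, c)) = F q.out := fun c => hF _ _ c.2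
  simp only [this, Finset.sum_const, Finset.card_univ, nsmul_eq_mul, Nat.card_eq_fintype_card]

/-- All non-central conjugacy classes have the same size. -/
theorem two_sizes {G : Type*} [Group G] [Fintype G] (hG : ∃ a b : G, a * b ≠ b * a) (m : ℕ)
    (hm : ∀ g ∉ Subgroup.center G, Nat.card (Subgroup.centralizer ({g} : Set G)) = m) :
    Nat.card (Subgroup.center G) ∣ m ∧ 2 ≤ m / Nat.card (Subgroup.center G) ∧
      ∀ p : ℕ, p.Prime → p ∣ m / Nat.card (Subgroup.center G) → p ∈ Ccomm G := by
  obtain ⟨a0, b0, hab⟩ := hG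
  have ha0 : a0 ∉ Subgroup.center G := by
    intro h
    exact hab (Subgroup.mem_center_iff.1 h b0).symm
  set z := Nat.card (Subgroup.center G) with hz
  have hzpos : 0 < z := Nat.card_pos
  have hle : ∀ g : G, Subgroup.center G ≤ Subgroup.centralizer ({g} : Set G) := fun g =>
    Subgroup.center_le_centralizer _
  have hzm : z ∣ m := by
    rw [← hm a0 ha0]; exact Subgroup.card_dvd_of_le (hle a0)
  have hmG : m ∣ Nat.card G := by
    rw [← hm a0 ha0]; exact Subgroup.card_subgroup_dvd_card _
  obtain ⟨k, hk⟩ := hzm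
  obtain ⟨n, hn⟩ : z ∣ Nat.card G := Subgroup.card_subgroup_dvd_card _
  have hkn : k ∣ n := by
    rw [hk, hn] at hmG
    exact Nat.dvd_of_mul_dvd_mul_left hzpos hmG
  have hmne : k ≠ n := by
    intro h
    have h1 : Nat.card (Subgroup.centralizer ({a0} : Set G)) = Nat.card G := by
      rw [hm a0 ha0, hk, hn, h]
    have h2 := Subgroup.eq_top_of_card_eq _ h1
    have h3 : b0 ∈ Subgroup.centralizer ({a0} : Set G) := h2 ▸ Subgroup.mem_top b0
    exact hab (Subgroup.mem_centralizer_singleton_iff.1 h3).symm
  have hk2 : 2 ≤ k := by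
    have hk0 : k ≠ 0 := by
      rintro rfl
      have : 0 < Nat.card (Subgroup.centralizer ({a0} : Set G)) := Nat.card_pos
      rw [hm a0 ha0, hk] at this
      simp at this
    have hk1 : k ≠ 1 := by
      rintro rfl
      have h1 : Nat.card (Subgroup.centralizer ({a0} : Set G)) ≤ Nat.card (Subgroup.center G) := by
        rw [hm a0 ha0, hk, mul_one]
      have h2 := Subgroup.eq_of_le_of_card_ge (hle a0) h1
      apply ha0
      rw [h2]
      exact Subgroup.mem_centralizer_singleton_iff.2 rfl
    omega
  have hdiv : m / z = k := by rw [hk]; exact Nat.mul_div_cancel_left _ hzpos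
  rw [hdiv]
  refine ⟨⟨k, hk⟩, hk2, fun p hp hpk => ?_⟩
  let R : Finset G := Finset.univ.image (Quotient.out : G ⧸ Subgroup.center G → G)
  have hR : ∀ f : G → ℤ, ∑ g, (if g ∈ R then f g else 0) = ∑ q : G ⧸ Subgroup.center G, f q.out := by
    intro f
    rw [← Finset.sum_filter]
    have : Finset.univ.filter (fun g => g ∈ R) = R := by ext; simp
    rw [this, Finset.sum_image]
    · rfl
    · intro x _ y _ h
      exact Quotient.out_injective h
  -- elements counted
  have cnt : ∀ x ∉ Subgroup.center G,
      ∑ g : G, (if g ∉ Subgroup.center G ∧ x * g = g * x then (1 : ℤ) else 0) = m - z := by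
    intro x hx
    have e1 : ∀ g : G, (if g ∉ Subgroup.center G ∧ x * g = g * x then (1 : ℤ) else 0) =
        (if g ∈ Subgroup.centralizer ({x} : Set G) then (1 : ℤ) else 0) -
          (if g ∈ Subgroup.center G then (1 : ℤ) else 0) := by
      intro g
      by_cases h1 : g ∈ Subgroup.center G
      · have h2 := hle x h1
        simp [h1, h2]
      · by_cases h2 : x * g = g * x
        · have : g ∈ Subgroup.centralizer ({x} : Set G) :=
            Subgroup.mem_centralizer_singleton_iff.2 h2.symm
          simp [h1, h2, this]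
        · have : g ∉ Subgroup.centralizer ({x} : Set G) := fun h =>
            h2 (Subgroup.mem_centralizer_singleton_iff.1 h).symm
          simp [h1, h2, this]
    simp only [e1, Finset.sum_sub_distrib]
    rw [← Finset.sum_filter, ← Finset.sum_filter, Finset.sum_const, Finset.sum_const]
    rw [← hm x hx, hz, Nat.card_eq_fintype_card, Nat.card_eq_fintype_card,
      Fintype.card_subtype, Fintype.card_subtype]
    simp
  have cntG : ∑ g : G, (if g ∉ Subgroup.center G then (1 : ℤ) else 0) = Nat.card G - z := by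
    have e1 : ∀ g : G, (if g ∉ Subgroup.center G then (1 : ℤ) else 0) =
        1 - (if g ∈ Subgroup.center G then (1 : ℤ) else 0) := by
      intro g
      by_cases h1 : g ∈ Subgroup.center G <;> simp [h1]
    simp only [e1, Finset.sum_sub_distrib]
    rw [← Finset.sum_filter (fun g => g ∈ Subgroup.center G), Finset.sum_const, Finset.sum_const]
    rw [hz, Nat.card_eq_fintype_card, Nat.card_eq_fintype_card, Fintype.card_subtype]
    simp
  have hcen : ∀ g : G, ∀ c ∈ Subgroup.center G,
      (g * c ∉ Subgroup.center G ↔ g ∉ Subgroup.center G) := by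
    intro g c hc
    rw [Subgroup.mul_mem_cancel_right _ hc]
  have hc : ∀ x ∉ Subgroup.center G, ∑ q : G ⧸ Subgroup.center G,
      (if q.out ∉ Subgroup.center G ∧ x * q.out = q.out * x then (1 : ℤ) else 0) = k - 1 := by
    intro x hx
    have h1 := sum_out
      (fun g : G => if g ∉ Subgroup.center G ∧ x * g = g * x then (1 : ℤ) else 0) (by
        intro g c hc
        have hcx : x * c = c * x := (Subgroup.mem_center_iff.1 hc x)
        have : x * (g * c) = g * c * x ↔ x * g = g * x := by
          rw [mul_assoc g c x, ← hcx, ← mul_assoc, ← mul_assoc]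
          exact mul_left_inj c
        simp only [hcen g c hc, this])
    rw [cnt x hx, hk] at h1
    have hz0 : (z : ℤ) ≠ 0 := by exact_mod_cast hzpos.ne'
    apply mul_left_cancel₀ hz0
    rw [← h1]; push_cast; ring
  have hTsum : ∑ q : G ⧸ Subgroup.center G,
      (if q.out ∉ Subgroup.center G then (1 : ℤ) else 0) = n - 1 := by
    have h1 := sum_out
      (fun g : G => if g ∉ Subgroup.center G then (1 : ℤ) else 0) (by
        intro g c hc
        simp only [hcen g c hc])
    rw [cntG, hn] at h1
    have hz0 : (z : ℤ) ≠ 0 := by exact_mod_cast hzpos.ne'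
    apply mul_left_cancel₀ hz0
    rw [← h1]; push_cast; ring
  have hT : ∑ g : G, (if g ∈ R then (if g ∉ Subgroup.center G then (1 : ℤ) else 0) else 0) =
      n - 1 := by rw [hR]; exact hTsum
  refine weighted (fun g => if g ∈ R then (if g ∉ Subgroup.center G then (1 : ℤ) else 0) else 0)
    (k - 1) ?_ ?_ ?_ p hp ?_ ?_
  · intro g hg
    simp [hg]
  · intro x hx
    rw [← hc x hx, ← hR (fun g => if g ∉ Subgroup.center G ∧ x * g = g * x then (1 : ℤ) else 0)]
    refine Finset.sum_congr rfl fun g _ => ?_
    by_cases h1 : x * g = g * x <;> by_cases h2 : g ∈ R <;> by_cases h3 : g ∈ Subgroup.center G <;>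
      simp [h1, h2, h3]
  · rw [hT]; intro h
    apply hmne
    have : (n : ℤ) = k := by linarith
    exact_mod_cast this.symm
  · rw [hT]
    have h1 : (p : ℤ) ∣ n := Int.natCast_dvd_natCast.2 (hpk.trans hkn)
    have h2 : (p : ℤ) ∣ k := Int.natCast_dvd_natCast.2 hpk
    have := dvd_sub h1 h2
    have e : ((n : ℤ) - 1 - (k - 1)) = n - k := by ring
    rw [e]; exact this
  · intro h
    have h2 : (p : ℤ) ∣ k := Int.natCast_dvd_natCast.2 hpk
    have := dvd_sub h2 h
    have e : ((k : ℤ) - (k - 1)) = ((1 : ℕ) : ℤ) := by push_cast; ring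
    rw [e] at this
    exact hp.one_lt.ne' (Nat.dvd_one.1 (Int.natCast_dvd_natCast.1 this))

end Pool.Agent.H963CC
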